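import Pool.Agent.X265.SpC
import Pool.Agent.Y119.HY.Fin2

/-!
# The transcendence degree of the entries of the holomorphic part of a hypergeometric system
-/

set_option autoImplicit false

open PowerSeries Pool.Agent.Y113

namespace Pool.Agent.X265.HypR

open Pool.Agent.Y119.HZ
open Pool.Agent.Y119.HY (QD Am Jm cm E Hf Hc Yf E_mul_neg E_isom)

variable {n : ℕ} {Q : Polynomial ℚ}

/-- the holomorphic part preserves the form -/
theorem Hf_form (hQ : QD n Q) {x : ℝ} (hx : 0 < x) (hx1 : x < 1) :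
    (Hf (Hc n Q) (x : ℂ)).transpose * cm (Jm n Q) * Hf (Hc n Q) (x : ℂ) = cm (Jm n Q) := by
  have h1 : (Yf (cm (Am n)) (Hc n Q) (x : ℂ)).transpose * cm (Jm n Q) * Yf (cm (Am n)) (Hc n Q) (x : ℂ) = cm (Jm n Q) := by
    refine Pool.Agent.Y119.HY.self_pair Pool.Agent.Y119.HY.Ac_nil Pool.Agent.Y119.HY.Jc_rel ?_ (Pool.Agent.Y119.HY.sol_c hQ)
      (Pool.Agent.Y119.HY.real_mem_Lens hx hx1)
    rw [← Pool.Agent.Y119.HY.cm_transpose, ← Pool.Agent.Y119.HY.cm_mul, ← Pool.Agent.Y119.HY.cm_mul,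
      ← Pool.Agent.Y119.HY.cm_add, Bm_rel hQ, Pool.Agent.Y119.HY.cm_zero]
  have h2 : Hf (Hc n Q) (x : ℂ) = Yf (cm (Am n)) (Hc n Q) (x : ℂ) * E (cm (Am n)) (-Complex.log x) := by
    unfold Yf
    rw [Matrix.mul_assoc, E_mul_neg Pool.Agent.Y119.HY.Ac_nil, mul_one]
  rw [h2]
  exact isom_mul h1 (E_isom Pool.Agent.Y119.HY.Ac_nil Pool.Agent.Y119.HY.Jc_rel _)

/-- **the rank** -/
theorem exists_T (hQ : QD n Q) (d : ℕ) (hd : 2 * d = n * (n + 1)) :
    ∃ T : Fin d → Fin n × Fin n, AlgebraicIndependent (Polynomial ℚ) (fun i => Hp n Q (T i).1 (T i).2) := by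
  classical
  obtain ⟨M, T, hM, -, hT⟩ := SpC.exists_generic (Jm n Q) (Pool.Agent.Y119.HY.Jm_skew hQ) (Pool.Agent.Y119.HY.Jm_det hQ) d hd
  refine ⟨T, ?_⟩
  rw [algebraicIndependent_iff]
  intro F hF
  set R : MvPolynomial (Fin (n * n)) (Polynomial ℚ) := MvPolynomial.rename (fun i => (ix n).symm (T i)) F with hR
  have hR0 : MvPolynomial.aeval (hf n Q) R = 0 := by
    rw [hR, MvPolynomial.aeval_rename, ← hF]
    congr 2
    funext i
    show Hp n Q (ix n ((ix n).symm (T i))).1 (ix n ((ix n).symm (T i))).2 = _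
    rw [Equiv.apply_symm_apply]
  have key : ∀ q : ℚ, 0 < q → q < 1 → MvPolynomial.map (Polynomial.evalRingHom q) F = 0 := by
    intro q hq hq1
    have hx : (0 : ℝ) < q := by exact_mod_cast hq
    have hx1 : (q : ℝ) < 1 := by exact_mod_cast hq1
    have hform := Hf_form hQ hx hx1
    obtain ⟨W, hW1, hW2, hW3⟩ := isom_inv (Pool.Agent.Y119.HY.Jc_det hQ) hform
    have h1 := rel_inv hQ hR0 hx hx1 (κ := W * M) (isom_mul hW3 hM)
    rw [← Matrix.mul_assoc, hW1, one_mul] at h1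
    rw [hR, MvPolynomial.eval₂_rename] at h1
    rw [algebraicIndependent_iff] at hT
    apply hT
    rw [MvPolynomial.aeval_def, MvPolynomial.eval₂_map, ← h1]
    have e1 : (algebraMap ℚ ℂ).comp (Polynomial.evalRingHom q) = evq (((q : ℝ)) : ℂ) := by
      refine Polynomial.ringHom_ext (fun a => ?_) ?_
      · simp [evq]
      · simp [evq]
    rw [e1]
    congr 1
    funext i
    simp
  ext m : 1
  rw [MvPolynomial.coeff_zero]
  refine Polynomial.eq_zero_of_infinite_isRoot _ ?_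
  refine Set.Infinite.mono (s := Set.Ioo (0 : ℚ) 1) ?_ (Set.Ioo_infinite (by norm_num))
  intro q hq
  have h2 := congrArg (MvPolynomial.coeff m) (key q hq.1 hq.2)
  rw [MvPolynomial.coeff_map, MvPolynomial.coeff_zero] at h2
  exact h2

end Pool.Agent.X265.HypR
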