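import Mathlib

/-!
# The symplectic group of a rational form contains matrices with `n (n + 1) / 2` algebraically independent entries
-/

set_option autoImplicit false

open Matrix

namespace Pool.Agent.X265.SpC

/-- arbitrarily many algebraically independent complex numbers -/
theorem exists_algInd (ι : Type) [Fintype ι] : ∃ y : ι → ℂ, AlgebraicIndependent ℚ y := by
  obtain ⟨s, hs⟩ := exists_isTranscendenceBasis ℚ ℂ
  have h1 : Infinite s := by
    by_contra hfin
    rw [not_infinite_iff_finite] at hfin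
    have h2 := IsAlgClosed.cardinal_eq_cardinal_transcendence_basis_of_aleph0_lt (R := ℚ)
      (K := ℂ) _ hs (by simp) (by rw [Cardinal.mk_complex]; exact Cardinal.aleph0_lt_continuum)
    have h3 : Cardinal.mk s < Cardinal.aleph0 := Cardinal.lt_aleph0_of_finite s
    rw [Cardinal.lift_id, Cardinal.lift_id, Cardinal.mk_complex] at h2
    have h4 : Cardinal.mk {x // x ∈ s} < Cardinal.aleph0 := h3
    rw [← h2] at h4
    exact absurd h4 (not_lt.2 Cardinal.aleph0_lt_continuum.le)
  obtain ⟨f⟩ : Nonempty (ι ↪ s) := by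
    have hι : Cardinal.mk ι ≤ Cardinal.mk s :=
      (Cardinal.mk_le_aleph0 (α := ι)).trans (Cardinal.aleph0_le_mk s)
    exact (Cardinal.le_def ι s).mp hι
  exact ⟨fun i => (f i : ℂ), hs.1.comp f f.injective⟩

variable {n : ℕ}

/-- the places on and above the diagonal -/
abbrev Sy (n : ℕ) : Type := {p : Fin n × Fin n // p.1 ≤ p.2}

theorem card_Sy (n : ℕ) : 2 * Fintype.card (Sy n) = n * (n + 1) := by
  have h1 : Fintype.card (Sy n) = ∑ j : Fin n, ((j : ℕ) + 1) := by
    rw [Fintype.card_subtype, Finset.card_eq_sum_ones, Finset.sum_filter, Fintype.sum_prod_type_right]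
    refine Finset.sum_congr rfl fun j _ => ?_
    rw [← Finset.sum_filter, ← Finset.card_eq_sum_ones]
    have : (Finset.univ.filter fun i : Fin n => i ≤ j) = Finset.Iic j := by ext; simp
    simp only
    rw [this, Fin.card_Iic]
  rw [h1, Fin.sum_univ_eq_sum_range (fun j => j + 1), Finset.sum_add_distrib]
  have h2 := Finset.sum_range_id_mul_two n
  rw [Finset.sum_const, Finset.card_range, smul_eq_mul, mul_one]
  rcases n with _ | n
  · simp
  · simp only [Nat.add_sub_cancel] at h2
    nlinarith

/-- the symmetric matrix -/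
def SM {R : Type} (s : Sy n → R) : Matrix (Fin n) (Fin n) R :=
  Matrix.of fun i j => if h : i ≤ j then s ⟨(i, j), h⟩ else s ⟨(j, i), le_of_not_ge h⟩

lemma SM_symm {R : Type} (s : Sy n → R) : (SM s).transpose = SM s := by
  ext i j
  unfold SM
  rw [Matrix.transpose_apply, Matrix.of_apply, Matrix.of_apply]
  by_cases h : i ≤ j
  · by_cases h' : j ≤ i
    · have : i = j := le_antisymm h h'
      subst this
      rfl
    · rw [dif_neg h', dif_pos h]
  · have h' : j ≤ i := le_of_not_ge h
    rw [dif_pos h', dif_neg h]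

lemma SM_map {R S : Type} (f : R → S) (s : Sy n → R) : (SM s).map f = SM fun p => f (s p) := by
  ext i j
  unfold SM
  rw [Matrix.map_apply, Matrix.of_apply, Matrix.of_apply]
  split_ifs <;> rfl

/-- **coordinates** -/
theorem exists_generic (J : Matrix (Fin n) (Fin n) ℚ) (hJ : J.transpose = -J) (hdet : J.det ≠ 0) (d : ℕ)
    (hd : 2 * d = n * (n + 1)) :
    ∃ (M : Matrix (Fin n) (Fin n) ℂ) (T : Fin d → Fin n × Fin n),
      M.transpose * J.map (algebraMap ℚ ℂ) * M = J.map (algebraMap ℚ ℂ) ∧ Function.Injective T ∧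
      AlgebraicIndependent ℚ (fun i => M (T i).1 (T i).2) := by
  classical
  obtain ⟨s, hs⟩ := exists_algInd (Sy n)
  set Jc : Matrix (Fin n) (Fin n) ℂ := J.map (algebraMap ℚ ℂ) with hJc
  set X : Matrix (Fin n) (Fin n) ℂ := (J⁻¹).map (algebraMap ℚ ℂ) * SM s with hX
  have hJu : IsUnit J.det := Ne.isUnit hdet
  have hJJ : Jc * (J⁻¹).map (algebraMap ℚ ℂ) = 1 := by
    rw [hJc, ← Matrix.map_mul, Matrix.mul_nonsing_inv _ hJu]
    simp
  have hSX : Jc * X = SM s := by
    rw [hX, ← Matrix.mul_assoc, hJJ, one_mul]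
  have hJct : Jc.transpose = -Jc := by
    rw [hJc, ← Matrix.transpose_map, hJ]
    ext i j
    simp
  have hXJ : X.transpose * Jc = -SM s := by
    have h1 := congrArg Matrix.transpose hSX
    rw [Matrix.transpose_mul, hJct, SM_symm, mul_neg] at h1
    rw [← h1, neg_neg]
  -- the determinant
  have hdet1 : (1 - X).det ≠ 0 := by
    set G : Matrix (Fin n) (Fin n) (MvPolynomial (Sy n) ℚ) :=
      1 - (J⁻¹).map (MvPolynomial.C) * SM (fun p => MvPolynomial.X p) with hG
    have key : ∀ y : Sy n → ℂ, MvPolynomial.aeval y G.det = (1 - (J⁻¹).map (algebraMap ℚ ℂ) * SM y).det := by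
      intro y
      have h1 : MvPolynomial.aeval y G.det = ((MvPolynomial.aeval y : MvPolynomial (Sy n) ℚ →ₐ[ℚ] ℂ).toRingHom) G.det := rfl
      rw [h1, RingHom.map_det]
      congr 1
      rw [hG, map_sub, map_one, map_mul]
      congr 2
      · ext i j
        simp
      · rw [RingHom.mapMatrix_apply, SM_map]
        congr 1
        funext p
        simp
    have hne : G.det ≠ 0 := by
      intro h0
      have h1 := key 0
      rw [h0, map_zero] at h1
      have h2 : SM (0 : Sy n → ℂ) = 0 := by
        ext i j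
        unfold SM
        simp
      rw [h2, mul_zero, sub_zero, Matrix.det_one] at h1
      exact one_ne_zero h1.symm
    intro h0
    apply hne
    rw [algebraicIndependent_iff] at hs
    apply hs
    rw [key, ← hX, h0]
  have hu : IsUnit (1 - X).det := Ne.isUnit hdet1
  set M : Matrix (Fin n) (Fin n) ℂ := (1 + X) * (1 - X)⁻¹ with hM
  have hMJ : M.transpose * Jc * M = Jc := by
    have e1 : (1 + X).transpose * Jc * (1 + X) = (1 - X).transpose * Jc * (1 - X) := by
      rw [Matrix.transpose_add, Matrix.transpose_sub, Matrix.transpose_one]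
      have a1 : (1 + X.transpose) * Jc * (1 + X) = Jc + X.transpose * Jc + Jc * X + X.transpose * Jc * X := by
        rw [add_mul, one_mul, mul_add, mul_one, add_mul]
        abel
      have a2 : (1 - X.transpose) * Jc * (1 - X) = Jc - X.transpose * Jc - Jc * X + X.transpose * Jc * X := by
        rw [sub_mul, one_mul, mul_sub, mul_one, sub_mul]
        abel
      rw [a1, a2, hXJ, hSX]
      abel
    calc M.transpose * Jc * M = ((1 - X)⁻¹).transpose * ((1 + X).transpose * Jc * (1 + X)) * (1 - X)⁻¹ := by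
          rw [hM, Matrix.transpose_mul]
          simp only [Matrix.mul_assoc]
      _ = ((1 - X)⁻¹).transpose * ((1 - X).transpose * Jc * (1 - X)) * (1 - X)⁻¹ := by rw [e1]
      _ = ((1 - X) * (1 - X)⁻¹).transpose * Jc * ((1 - X) * (1 - X)⁻¹) := by
          rw [Matrix.transpose_mul]
          simp only [Matrix.mul_assoc]
      _ = Jc := by rw [Matrix.mul_nonsing_inv _ hu, Matrix.transpose_one, one_mul, mul_one]
  -- `X` in terms of `M`
  have hM1 : M + 1 = (2 : ℂ) • (1 - X)⁻¹ := by
    have : M + 1 = (1 + X) * (1 - X)⁻¹ + (1 - X) * (1 - X)⁻¹ := by rw [Matrix.mul_nonsing_inv _ hu, hM]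
    rw [this, ← add_mul]
    have h2 : (1 + X) + (1 - X) = (2 : ℂ) • (1 : Matrix (Fin n) (Fin n) ℂ) := by
      rw [two_smul]
      abel
    rw [h2, Matrix.smul_mul, one_mul]
  have hMX : (M + 1) * ((1 / 2 : ℂ) • (1 - X)) = 1 := by
    rw [hM1, Matrix.smul_mul, Matrix.mul_smul, smul_smul, Matrix.nonsing_inv_mul _ hu]
    norm_num
  have hXM : X = 1 - (2 : ℂ) • (M + 1)⁻¹ := by
    rw [Matrix.inv_eq_right_inv hMX, smul_smul]
    norm_num
  -- the rank
  set m : Fin n × Fin n → ℂ := fun p => M p.1 p.2 with hm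
  set A := Algebra.adjoin ℚ (Set.range m) with hA
  set L : Subalgebra A ℂ := Subalgebra.algebraicClosure A ℂ with hL
  have hrat : ∀ q : ℚ, (algebraMap ℚ ℂ q) ∈ L := by
    intro q
    have : IsAlgebraic A (algebraMap ℚ ℂ q) := by
      rw [IsScalarTower.algebraMap_apply ℚ A ℂ]
      exact isAlgebraic_algebraMap _
    exact this
  have hmL : ∀ i j, M i j ∈ L := by
    intro i j
    have h1 : IsAlgebraic A (M i j) := by
      have h2 : M i j = algebraMap A ℂ ⟨M i j, Algebra.subset_adjoin ⟨(i, j), rfl⟩⟩ := rfl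
      rw [h2]
      exact isAlgebraic_algebraMap _
    exact h1
  have hM1L : ∀ i j, (M + 1) i j ∈ L := by
    intro i j
    rw [Matrix.add_apply, Matrix.one_apply]
    refine L.add_mem (hmL i j) ?_
    split_ifs
    · exact L.one_mem
    · exact L.zero_mem
  have hinvL : ∀ i j, (M + 1)⁻¹ i j ∈ L := by
    intro i j
    rw [Matrix.inv_def, Matrix.smul_apply, smul_eq_mul]
    obtain ⟨N, hN⟩ : ∃ N : Matrix (Fin n) (Fin n) L, N.map (algebraMap L ℂ) = M + 1 :=
      ⟨Matrix.of fun i j => ⟨(M + 1) i j, hM1L i j⟩, by ext i j; rfl⟩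
    have h1 : (M + 1).det = algebraMap L ℂ N.det := by
      rw [← hN, RingHom.map_det]
      rfl
    have h2 : (M + 1).adjugate i j = algebraMap L ℂ (N.adjugate i j) := by
      rw [← hN]
      have h3 := RingHom.map_adjugate (algebraMap L ℂ) N
      exact (congrFun (congrFun h3 i) j).symm
    rw [h1, h2]
    refine L.mul_mem ?_ (N.adjugate i j).2
    rw [Ring.inverse_eq_inv']
    have h4 : IsAlgebraic A (algebraMap L ℂ N.det) := N.det.2
    exact h4.inv
  have hXL : ∀ i j, X i j ∈ L := by
    intro i j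
    rw [hXM, Matrix.sub_apply, Matrix.smul_apply, smul_eq_mul, Matrix.one_apply]
    refine L.sub_mem ?_ (L.mul_mem ?_ (hinvL i j))
    · split_ifs
      · exact L.one_mem
      · exact L.zero_mem
    · have h1 := hrat 2
      rwa [show algebraMap ℚ ℂ 2 = (2 : ℂ) by norm_num] at h1
  have hSL : ∀ p : Sy n, s p ∈ L := by
    rintro ⟨⟨i, j⟩, hij⟩
    have h1 : s ⟨(i, j), hij⟩ = (SM s) i j := by
      unfold SM
      rw [Matrix.of_apply, dif_pos hij]
    rw [h1, ← hSX, Matrix.mul_apply]
    refine Subalgebra.sum_mem _ fun k _ => L.mul_mem ?_ (hXL k j)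
    exact hrat _
  set MM := AlgebraicIndependent.matroid ℚ ℂ with hMM
  obtain ⟨B, hB⟩ := MM.exists_isBasis (Set.range m) (Set.subset_univ _)
  obtain ⟨hB1, hB2, hB3⟩ := AlgebraicIndependent.matroid_isBasis_iff.1 hB
  have hBfin : B.Finite := (Set.finite_range m).subset hB2
  have hcl : Set.range s ⊆ MM.closure (Set.range m) := by
    rw [hMM, AlgebraicIndependent.matroid_closure_eq]
    rintro _ ⟨p, rfl⟩
    exact hSL p
  have hsI : MM.Indep (Set.range s) := by
    rw [hMM, AlgebraicIndependent.matroid_indep_iff]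
    exact hs.coe_range
  have h5 : (Set.range s).encard ≤ B.encard := by
    have e1 : MM.eRk B = B.encard := hB.indep.eRk_eq_encard
    have e2 : MM.eRk (Set.range s) = (Set.range s).encard := hsI.eRk_eq_encard
    rw [← e1, ← e2]
    refine (MM.eRk_mono hcl).trans ?_
    rw [Matroid.eRk_closure_eq]
    exact hB.eRk_eq_eRk.ge
  have h6 : (Set.range s).encard = (Fintype.card (Sy n) : ℕ∞) := by
    rw [← Set.image_univ, hs.injective.encard_image, Set.encard_univ, ENat.card_eq_coe_fintype_card]
  have h7 : d ≤ hBfin.toFinset.card := by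
    have h8 := card_Sy n
    have h9 : Fintype.card (Sy n) ≤ hBfin.toFinset.card := by
      rw [h6, hBfin.encard_eq_coe_toFinset_card] at h5
      exact_mod_cast h5
    omega
  obtain ⟨B', hB', hcard⟩ := Finset.exists_subset_card_eq h7
  have hB'2 : ∀ b : B', ∃ p : Fin n × Fin n, m p = b := by
    intro b
    have := hB2 (hBfin.mem_toFinset.1 (hB' b.2))
    exact this
  choose T' hT' using hB'2
  have e : Fin d ≃ B' := (Fintype.equivFinOfCardEq (by rw [Fintype.card_coe, hcard])).symm
  refine ⟨M, fun i => T' (e i), hMJ, ?_, ?_⟩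
  · intro i j hij
    have h8 : (e i : ℂ) = e j := by
      rw [← hT' (e i), ← hT' (e j)]
      exact congrArg m hij
    exact e.injective (Subtype.ext h8)
  · have h8 : (fun i => M (T' (e i)).1 (T' (e i)).2) = (Subtype.val : B → ℂ) ∘
        fun i : Fin d => (⟨(e i : ℂ), hBfin.mem_toFinset.1 (hB' (e i).2)⟩ : B) := by
      funext i
      exact hT' (e i)
    rw [h8]
    refine hB1.comp _ ?_
    intro i j hij
    exact e.injective (Subtype.ext (congrArg (fun b : B => (b : ℂ)) hij))

end Pool.Agent.X265.SpC
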